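import Pool.Agent.H992.BE.Defs
import Pool.Graph.R_pool_sql_team_seeded_5cf16337.K3h40.EC.M4

/-!
# BE11: room around most points, reproduction, translation
-/

set_option autoImplicit false
open MeasureTheory Filter Topology Complex ProbabilityTheory
open scoped ContDiff ENNReal NNReal BoundedContinuousFunction

namespace Pool.Agent.H120.BE

open Pool.Agent.H992.BE
open Pool.Agent.W745.RW (lap)
open Pool.Agent.K3h40.EC.Loc (cutWave localWave IsCutoff IsLocalLimit)
open Pool.Agent.K3h40.EC (psi Loc loc_apply loc_cont infD_pos af Dc repR repL psi_zero lapsi_Sp)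

noncomputable section

variable {Ω : Set ℂ} {χ : ℝ → ℝ} {lam : ℕ → ℝ} {u : ℕ → ℂ → ℝ}

theorem mkLoc (hχ : IsCutoff χ) (H : IsEigenSequence Ω lam u) : Loc Ω χ lam u :=
  ⟨H.isOpen, H.nonempty, H.area, ⟨hχ.cont, hχ.one, hχ.zero⟩, H.pos, H.lim, H.smooth, H.bounded⟩

theorem lw_apply (hχ : IsCutoff χ) (H : IsEigenSequence Ω lam u) (n : ℕ) {z₀ : ℂ} (hz : z₀ ∈ Ω)
    (z : ℂ) : localWave Ω χ (lam n) (u n) z₀ z = cutWave Ω χ (lam n) (u n) z₀ z := by
  have L := mkLoc hχ H
  obtain ⟨C, hC⟩ := L.bd n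
  exact loc_apply L.op L.cne L.cu (L.pos n) (L.sm n).continuousOn hC hz z

theorem lw_cont (hχ : IsCutoff χ) (H : IsEigenSequence Ω lam u) (n : ℕ) :
    ContinuousOn (localWave Ω χ (lam n) (u n)) Ω := by
  have L := mkLoc hχ H
  obtain ⟨C, hC⟩ := L.bd n
  exact loc_cont L.op L.cne L.cu (L.pos n) (L.sm n).continuousOn hC

theorem agr_of (hχ : IsCutoff χ) (H : IsEigenSequence Ω lam u) {R : ℝ} {δ : ℝ}
    (hone : ∀ r, 0 ≤ r → r ≤ δ → χ r = 1) (n : ℕ) {z₀ : ℂ} (hz : z₀ ∈ Ω)
    (h1 : (R + 2) / √(lam n) < Metric.infDist z₀ Ωᶜ)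
    (h2 : R + 1 ≤ δ * Metric.infDist z₀ Ωᶜ * √(lam n)) : Agr Ω χ (lam n) (u n) R z₀ := by
  have L := mkLoc hχ H
  have hs0 : 0 < √(lam n) := Real.sqrt_pos.2 (H.pos n)
  have hd0 : 0 < Metric.infDist z₀ Ωᶜ := infD_pos L.op L.cne hz
  refine ⟨?_, ?_⟩
  · exact (Metric.closedBall_subset_ball h1).trans Metric.ball_infDist_compl_subset
  · intro x hx
    rw [lw_apply hχ H n hz]
    unfold cutWave
    have h3 : ‖x‖ / (√(lam n) * Metric.infDist z₀ Ωᶜ) ≤ δ := by
      rw [div_le_iff₀ (by positivity)]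
      linarith [mul_comm (√(lam n)) (Metric.infDist z₀ Ωᶜ),
        mul_assoc δ (Metric.infDist z₀ Ωᶜ) (√(lam n)), hx, h2,
        congrArg (fun t => δ * t) (mul_comm (√(lam n)) (Metric.infDist z₀ Ωᶜ))]
    rw [hone _ (by positivity) h3, mul_one]

/-- the points near the boundary have small measure -/
theorem thin (hΩ : IsOpen Ω) (hne : Ωᶜ.Nonempty) (hfin : volume Ω ≠ ⊤) :
    Tendsto (fun k : ℕ => volume {z | z ∈ Ω ∧ Metric.infDist z Ωᶜ ≤ 1 / ((k : ℝ) + 1)}) atTop
      (𝓝 0) := by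
  have hm : ∀ k : ℕ, MeasurableSet {z | z ∈ Ω ∧ Metric.infDist z Ωᶜ ≤ 1 / ((k : ℝ) + 1)} := by
    intro k
    exact hΩ.measurableSet.inter
      (isClosed_le (Metric.continuous_infDist_pt _) continuous_const).measurableSet
  have ha : Antitone fun k : ℕ => {z | z ∈ Ω ∧ Metric.infDist z Ωᶜ ≤ 1 / ((k : ℝ) + 1)} := by
    intro k l hkl z hz
    refine ⟨hz.1, hz.2.trans ?_⟩
    have : (k : ℝ) ≤ l := by exact_mod_cast hkl
    gcongr
  have h1 := tendsto_measure_iInter_atTop (μ := (volume : Measure ℂ))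
    (fun k => (hm k).nullMeasurableSet) ha
    ⟨0, ne_top_of_le_ne_top hfin (measure_mono fun z hz => hz.1)⟩
  have h2 : (⋂ k : ℕ, {z | z ∈ Ω ∧ Metric.infDist z Ωᶜ ≤ 1 / ((k : ℝ) + 1)}) = ∅ := by
    ext z
    simp only [Set.mem_iInter, Set.mem_empty_iff_false, iff_false]
    intro hz
    have hzΩ : z ∈ Ω := (hz 0).1
    obtain ⟨k, hk⟩ := exists_nat_one_div_lt (infD_pos hΩ hne hzΩ)
    exact absurd (hz k).2 (not_le.2 hk)
  rw [h2, measure_empty] at h1
  exact h1

theorem agree : S_Agree := by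
  intro Ω χ lam u hχ H R hR
  have L := mkLoc hχ H
  obtain ⟨δ, hδ, hone⟩ := hχ.one
  rw [ENNReal.tendsto_nhds_zero]
  intro ε hε
  obtain ⟨k, hk⟩ := (ENNReal.tendsto_nhds_zero.1 (thin H.isOpen L.cne H.area) ε hε).exists
  have hs : Tendsto (fun n => √(lam n)) atTop atTop := Real.tendsto_sqrt_atTop.comp H.lim
  filter_upwards [hs.eventually_gt_atTop ((R + 2) * ((k : ℝ) + 1)),
    hs.eventually_ge_atTop ((R + 1) * ((k : ℝ) + 1) / δ)] with n hn1 hn2
  refine (measure_mono ?_).trans hk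
  rintro z ⟨hz, hza⟩
  refine ⟨hz, ?_⟩
  by_contra hcon
  push Not at hcon
  apply hza
  have hs0 : 0 < √(lam n) := Real.sqrt_pos.2 (H.pos n)
  have hk0 : (0 : ℝ) < (k : ℝ) + 1 := by positivity
  refine agr_of hχ H hone n hz ?_ ?_
  · refine lt_trans ?_ hcon
    rw [div_lt_div_iff₀ hs0 hk0]
    linarith
  · rw [div_le_iff₀ hδ] at hn2
    rw [div_lt_iff₀ hk0] at hcon
    have h3 : (R + 1) * ((k : ℝ) + 1) ≤ √(lam n) * δ * (Metric.infDist z Ωᶜ * ((k : ℝ) + 1)) := by
      refine hn2.trans ?_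
      exact le_mul_of_one_le_right (by positivity) hcon.le
    have h4 : (R + 1) * ((k : ℝ) + 1) ≤
        (δ * Metric.infDist z Ωᶜ * √(lam n)) * ((k : ℝ) + 1) := by
      linarith [h3]
    exact le_of_mul_le_mul_right h4 hk0

theorem regR : S_RegR := by
  intro Ω χ lam u hχ H R hR n z₀ hz hA
  obtain ⟨hball, hagr⟩ := hA
  have hs0 : 0 < √(lam n) := Real.sqrt_pos.2 (H.pos n)
  have hh : 0 < 1 / √(lam n) := by positivity
  obtain ⟨h, hhdef⟩ : ∃ h : ℝ, h = 1 / √(lam n) := ⟨_, rfl⟩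
  rw [← hhdef] at hh hagr
  have he : ∀ z ∈ Ω, h ^ 2 * lap (u n) z + u n z = 0 := by
    intro z hzΩ
    have h1 := H.eigen n z hzΩ
    have h2 : h ^ 2 * lam n = 1 := by
      rw [hhdef, div_pow, Real.sq_sqrt (H.pos n).le]
      have := (H.pos n).ne'
      field_simp
    have h3 : h ^ 2 * lap (u n) z + u n z = h ^ 2 * (lap (u n) z + lam n * u n z) -
      (h ^ 2 * lam n - 1) * u n z := by ring
    rw [h3, h1, h2]
    ring
  intro x hx
  have hD : Dc Ω (z₀ + (h : ℂ) * x) h := by
    refine Set.Subset.trans ?_ hball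
    apply Metric.closedBall_subset_closedBall'
    rw [dist_eq_norm, add_sub_cancel_left, norm_mul, Complex.norm_real, Real.norm_of_nonneg hh.le]
    have h1 : (R + 2) / √(lam n) = h * (R + 2) := by rw [hhdef]; ring
    rw [h1]
    nlinarith
  have hfx : localWave Ω χ (lam n) (u n) z₀ x = u n (z₀ + (h : ℂ) * x) :=
    hagr x (by linarith)
  have hcg : ∀ Q : ℂ → ℝ, (∀ w : ℂ, 1 < ‖w‖ → Q w = 0) →
      ∫ w, localWave Ω χ (lam n) (u n) z₀ (x + w) * Q w =
        ∫ w, u n (af (z₀ + (h : ℂ) * x) h w) * Q w := by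
    intro Q hQ
    refine integral_congr_ae (Eventually.of_forall fun w => ?_)
    simp only
    by_cases hw : ‖w‖ ≤ 1
    · rw [hagr (x + w) ((norm_add_le _ _).trans (by linarith))]
      unfold af
      rw [show z₀ + (h : ℂ) * (x + w) = z₀ + (h : ℂ) * x + (h : ℂ) * w by ring]
    · push Not at hw
      rw [hQ w hw, mul_zero, mul_zero]
  refine ⟨?_, ?_⟩
  · rw [hcg psi fun w hw => psi_zero hw.le, repR H.isOpen (H.smooth n) hh he hD, hfx]
  · rw [hcg (lap psi) lapsi_Sp, repL H.isOpen (H.smooth n) hh he hD, hfx]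

theorem ch_norm {k : ℕ} (w : Fin k → ℂ) (t : Fin k → ℝ) (f : C(ℂ, ℝ)) : ‖ch w t f‖ = 1 := by
  unfold ch
  rw [mul_comm]
  exact Complex.norm_exp_ofReal_mul_I _

theorem ch_cont {k : ℕ} (w : Fin k → ℂ) (t : Fin k → ℝ) : Continuous (ch w t) := by
  unfold ch
  refine Complex.continuous_exp.comp (continuous_const.mul (Complex.continuous_ofReal.comp ?_))
  exact continuous_finsetSum _ fun j _ => continuous_const.mul (continuous_eval_const (w j))

theorem regS (h : S_Agree) : S_RegS := by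
  intro Ω χ lam u hχ H x k w t
  have hfin : IsFiniteMeasure (volume.restrict Ω) := ⟨by
    rw [Measure.restrict_apply_univ]
    exact lt_of_le_of_ne le_top H.area⟩
  have hW : 0 ≤ ∑ j, ‖w j‖ := Finset.sum_nonneg fun j _ => norm_nonneg _
  obtain ⟨R, hRdef⟩ : ∃ R : ℝ, R = ‖x‖ + ∑ j, ‖w j‖ := ⟨_, rfl⟩
  have hR : 0 ≤ R := by rw [hRdef]; positivity
  have hwj : ∀ j, ‖w j‖ ≤ ∑ j, ‖w j‖ := fun j =>
    Finset.single_le_sum (f := fun j => ‖w j‖) (fun i _ => norm_nonneg _) (Finset.mem_univ j)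
  have hB := h Ω χ lam u hχ H R hR
  -- integrability
  have hint : ∀ (n : ℕ) (w' : Fin k → ℂ),
      IntegrableOn (fun z₀ => ch w' t (localWave Ω χ (lam n) (u n) z₀)) Ω := by
    intro n w'
    refine Integrable.mono' (integrable_const 1)
      (((ch_cont w' t).comp_continuousOn (lw_cont hχ H n)).aestronglyMeasurable
        H.isOpen.measurableSet) (Eventually.of_forall fun z => ?_)
    rw [ch_norm]
  have hfinB : ∀ n, 4 * volume {z₀ | z₀ ∈ Ω ∧ ¬ Agr Ω χ (lam n) (u n) R z₀} ≠ ⊤ := by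
    intro n
    refine ENNReal.mul_ne_top (by norm_num) (ne_top_of_le_ne_top H.area ?_)
    exact measure_mono fun z hz => hz.1
  refine squeeze_zero_norm (a := fun n =>
    (4 * volume {z₀ | z₀ ∈ Ω ∧ ¬ Agr Ω χ (lam n) (u n) R z₀}).toReal) ?_ ?_
  · intro n
    obtain ⟨B, hBdef⟩ : ∃ B : Set ℂ, B = {z₀ | z₀ ∈ Ω ∧ ¬ Agr Ω χ (lam n) (u n) R z₀} := ⟨_, rfl⟩
    have hfB := hfinB n
    rw [← hBdef] at hfB ⊢
    have hs0 : 0 < √(lam n) := Real.sqrt_pos.2 (H.pos n)
    obtain ⟨c, hcdef⟩ : ∃ c : ℂ, c = ((1 / √(lam n) : ℝ) : ℂ) * x := ⟨_, rfl⟩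
    have hcn : ‖c‖ ≤ (R + 2) / √(lam n) := by
      rw [hcdef, norm_mul, Complex.norm_real, Real.norm_of_nonneg (by positivity), one_div,
        inv_mul_eq_div]
      gcongr
      rw [hRdef]
      linarith
    obtain ⟨F, hF⟩ : ∃ F : ℂ → ℂ, F = fun z => ch w t (localWave Ω χ (lam n) (u n) z) := ⟨_, rfl⟩
    obtain ⟨F', hF'⟩ : ∃ F' : ℂ → ℂ, F' = fun z =>
      ch (fun j => w j + x) t (localWave Ω χ (lam n) (u n) z) := ⟨_, rfl⟩
    have hFi : Integrable (Ω.indicator F) := by
      rw [integrable_indicator_iff H.isOpen.measurableSet, hF]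
      exact hint n w
    have hFi' : Integrable (Ω.indicator F') := by
      rw [integrable_indicator_iff H.isOpen.measurableSet, hF']
      exact hint n _
    have hFi2 : Integrable fun z => Ω.indicator F (z + c) := hFi.comp_add_right c
    have hF1 : ∀ z, ‖Ω.indicator F z‖ ≤ 1 := by
      intro z
      refine (norm_indicator_le_norm_self _ _).trans ?_
      rw [hF, ch_norm]
    have hF1' : ∀ z, ‖Ω.indicator F' z‖ ≤ 1 := by
      intro z
      refine (norm_indicator_le_norm_self _ _).trans ?_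
      rw [hF', ch_norm]
    have e1 : (∫ z₀ in Ω, ch (fun j => w j + x) t (localWave Ω χ (lam n) (u n) z₀)) -
        ∫ z₀ in Ω, ch w t (localWave Ω χ (lam n) (u n) z₀) =
        ∫ z, (Ω.indicator F' z - Ω.indicator F (z + c)) := by
      rw [integral_sub hFi' hFi2, integral_add_right_eq_self (fun z => Ω.indicator F z) c,
        integral_indicator H.isOpen.measurableSet, integral_indicator H.isOpen.measurableSet,
        hF, hF']
    rw [e1]
    -- where the difference does not vanish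
    have hzero : ∀ z, z ∉ B → z + c ∉ B → Ω.indicator F' z - Ω.indicator F (z + c) = 0 := by
      intro z h1 h2
      rw [hBdef] at h1 h2
      simp only [Set.mem_ofPred_eq, not_and, not_not] at h1 h2
      by_cases hz : z ∈ Ω
      · have hA1 := h1 hz
        have hz2 : z + c ∈ Ω := by
          apply hA1.1
          rw [Metric.mem_closedBall, dist_eq_norm, add_sub_cancel_left]
          exact hcn
        have hA2 := h2 hz2
        rw [Set.indicator_of_mem hz, Set.indicator_of_mem hz2, hF, hF', sub_eq_zero]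
        simp only [ch]
        congr 3
        refine Finset.sum_congr rfl fun j _ => ?_
        rw [hA1.2 (w j + x) ((norm_add_le _ _).trans (by linarith [hwj j])),
          hA2.2 (w j) (by linarith [hwj j, norm_nonneg x]), hcdef]
        congr 2
        ring
      · have hz2 : z + c ∉ Ω := by
          intro hz2
          apply hz
          have hA2 := h2 hz2
          apply hA2.1
          rw [Metric.mem_closedBall, dist_eq_norm, sub_add_cancel_left, norm_neg]
          exact hcn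
        rw [Set.indicator_of_notMem hz, Set.indicator_of_notMem hz2, sub_zero]
    have hle : ∀ z, ‖Ω.indicator F' z - Ω.indicator F (z + c)‖ₑ ≤
        (toMeasurable volume B).indicator (fun _ => (2 : ℝ≥0∞)) z +
          (toMeasurable volume B).indicator (fun _ => (2 : ℝ≥0∞)) (z + c) := by
      intro z
      have h2 : ‖Ω.indicator F' z - Ω.indicator F (z + c)‖ₑ ≤ 2 := by
        rw [← ofReal_norm]
        have h3 : ‖Ω.indicator F' z - Ω.indicator F (z + c)‖ ≤ 2 := by
          refine (norm_sub_le _ _).trans ?_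
          linarith [hF1 (z + c), hF1' z]
        refine (ENNReal.ofReal_le_ofReal h3).trans ?_
        norm_num
      by_cases h3 : z ∈ B
      · rw [Set.indicator_of_mem (subset_toMeasurable _ _ h3)]
        exact h2.trans le_self_add
      · by_cases h4 : z + c ∈ B
        · rw [Set.indicator_of_mem (subset_toMeasurable _ _ h4)]
          exact h2.trans le_add_self
        · rw [hzero z h3 h4, enorm_zero]
          exact zero_le
    have hmB : MeasurableSet (toMeasurable volume B) := measurableSet_toMeasurable _ _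
    have hmI : Measurable ((toMeasurable volume B).indicator (fun _ => (2 : ℝ≥0∞))) :=
      measurable_const.indicator hmB
    have h5 : ∫⁻ z, ‖Ω.indicator F' z - Ω.indicator F (z + c)‖ₑ ≤ 4 * volume B := by
      refine (lintegral_mono hle).trans ?_
      rw [lintegral_add_left hmI, lintegral_add_right_eq_self
        (fun z => (toMeasurable volume B).indicator (fun _ => (2 : ℝ≥0∞)) z) c,
        lintegral_indicator_const hmB, measure_toMeasurable, ← add_mul]
      norm_num
    refine (norm_integral_le_lintegral_norm _).trans ?_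
    refine ENNReal.toReal_mono hfB ?_
    simp only [ofReal_norm]
    exact h5
  · have h6 : Tendsto (fun n => 4 * volume {z₀ | z₀ ∈ Ω ∧ ¬ Agr Ω χ (lam n) (u n) R z₀}) atTop
        (𝓝 (4 * 0)) := ENNReal.Tendsto.const_mul hB (Or.inr (by norm_num))
    rw [mul_zero] at h6
    have h7 := (ENNReal.tendsto_toReal ENNReal.zero_ne_top).comp h6
    rw [ENNReal.toReal_zero] at h7
    exact h7

end

end Pool.Agent.H120.BE
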